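import Pool.Agent.W645.WV.Stm

/-! Project WV, part SMQ: the symbols of the wave equation are smooth at the origin. -/

set_option autoImplicit false
set_option maxHeartbeats 4000000

open MeasureTheory Set Complex
open scoped ENNReal Nat ContDiff

namespace Pool.Agent.W85.WV
open Pool.Agent.W645.WV

/-- the entire function with `eC (z^2) = cos z` -/
noncomputable def eC (z : ℂ) : ℂ := ∑' n : ℕ, (-1) ^ n * z ^ n / ((2 * n)! : ℂ)

/-- the entire function with `z * eS (z^2) = sin z` -/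
noncomputable def eS (z : ℂ) : ℂ := ∑' n : ℕ, (-1) ^ n * z ^ n / ((2 * n + 1)! : ℂ)

theorem entire_aux (c : ℕ → ℕ) (hc : ∀ n, n ! ≤ c n) :
    Differentiable ℂ (fun z : ℂ => ∑' n : ℕ, (-1) ^ n * z ^ n / (c n : ℂ)) := by
  intro z
  have h1 : DifferentiableOn ℂ (fun z : ℂ => ∑' n : ℕ, (-1) ^ n * z ^ n / (c n : ℂ))
      (Metric.ball 0 (‖z‖ + 1)) := by
    apply differentiableOn_tsum_of_summable_norm (Real.summable_pow_div_factorial (‖z‖ + 1))
    · intro n
      fun_prop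
    · exact Metric.isOpen_ball
    · intro n w hw
      rw [mem_ball_zero_iff] at hw
      rw [norm_div, norm_mul, norm_pow, norm_pow, norm_neg, norm_one, one_pow, one_mul,
        Complex.norm_natCast]
      have h2 : (0 : ℝ) < n ! := by exact_mod_cast Nat.factorial_pos n
      have h3 : ((n ! : ℕ) : ℝ) ≤ c n := by exact_mod_cast hc n
      apply div_le_div₀ (by positivity) _ h2 h3
      exact pow_le_pow_left₀ (norm_nonneg _) hw.le n
  exact (h1 z (by rw [mem_ball_zero_iff]; linarith)).differentiableAt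
    (Metric.isOpen_ball.mem_nhds (by rw [mem_ball_zero_iff]; linarith))

theorem eC_diff : Differentiable ℂ eC := by
  have := entire_aux (fun n => (2 * n)!) (fun n => Nat.factorial_le (by omega))
  exact this

theorem eS_diff : Differentiable ℂ eS := by
  have := entire_aux (fun n => (2 * n + 1)!) (fun n => Nat.factorial_le (by omega))
  exact this

theorem eC_sq (z : ℂ) : eC (z ^ 2) = Complex.cos z := by
  rw [← (Complex.hasSum_cos z).tsum_eq]
  unfold eC
  congr 1
  funext n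
  rw [← pow_mul]

theorem eS_sq (z : ℂ) : z * eS (z ^ 2) = Complex.sin z := by
  rw [← (Complex.hasSum_sin z).tsum_eq]
  unfold eS
  rw [← tsum_mul_left]
  congr 1
  funext n
  rw [← pow_mul, pow_succ]
  ring

theorem eS_zero : eS 0 = 1 := by
  unfold eS
  rw [tsum_eq_single 0]
  · simp
  · intro n hn
    simp [hn]

theorem eC_real : ContDiff ℝ ∞ (fun y : ℝ => eC (y : ℂ)) := by
  have h1 : ContDiff ℂ ∞ eC := eC_diff.contDiff
  have h2 : ContDiff ℝ ∞ eC := h1.restrict_scalars ℝ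
  exact h2.comp Complex.ofRealCLM.contDiff

theorem eS_real : ContDiff ℝ ∞ (fun y : ℝ => eS (y : ℂ)) := by
  have h1 : ContDiff ℂ ∞ eS := eS_diff.contDiff
  have h2 : ContDiff ℝ ∞ eS := h1.restrict_scalars ℝ
  exact h2.comp Complex.ofRealCLM.contDiff

/-- joint smoothness of the iterated derivatives in the second variable -/
theorem jd (k : ℕ) : ∀ F : ℝ × ℝ → ℂ, ContDiff ℝ ∞ F →
    ContDiff ℝ ∞ (fun q : ℝ × ℝ => iteratedDeriv k (fun y => F (q.1, y)) q.2) := by
  induction k with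
  | zero =>
    intro F hF
    simp only [iteratedDeriv_zero]
    exact hF
  | succ k ih =>
    intro F hF
    have hd : ∀ t y : ℝ, HasDerivAt (fun y => F (t, y)) (fderiv ℝ F (t, y) (0, 1)) y := by
      intro t y
      have h1 : HasFDerivAt F (fderiv ℝ F (t, y)) (t, y) :=
        (hF.differentiable (by simp)).differentiableAt.hasFDerivAt
      have h2 : HasDerivAt (fun y : ℝ => ((t, y) : ℝ × ℝ)) ((0, 1) : ℝ × ℝ) y :=
        (hasDerivAt_const y t).prodMk (hasDerivAt_id y)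
      exact h1.comp_hasDerivAt y h2
    have hG : ContDiff ℝ ∞ (fun q : ℝ × ℝ => fderiv ℝ F q (0, 1)) := by
      have h1 : ContDiff ℝ ∞ (fderiv ℝ F) := hF.fderiv_right (by simp)
      exact h1.clm_apply contDiff_const
    have h3 := ih _ hG
    have h4 : (fun q : ℝ × ℝ => iteratedDeriv (k + 1) (fun y => F (q.1, y)) q.2) =
        (fun q : ℝ × ℝ => iteratedDeriv k (fun y => fderiv ℝ F (q.1, y) (0, 1)) q.2) := by
      funext q
      rw [iteratedDeriv_succ']
      congr 1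
      funext y
      exact (hd q.1 y).deriv
    rw [h4]
    exact h3

theorem iter_zero (f : ℝ → ℂ) (U : Set ℝ) (hU : IsOpen U) (h : ∀ y ∈ U, f y = 0) (k : ℕ) :
    ∀ y ∈ U, iteratedDeriv k f y = 0 := by
  induction k with
  | zero =>
    intro y hy
    rw [iteratedDeriv_zero]
    exact h y hy
  | succ k ih =>
    intro y hy
    rw [iteratedDeriv_succ]
    have h1 : iteratedDeriv k f =ᶠ[nhds y] (fun _ => (0 : ℂ)) := by
      filter_upwards [hU.mem_nhds hy] with z hz
      exact ih z hz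
    rw [h1.deriv_eq]
    exact deriv_const y 0

theorem bd (F : ℝ × ℝ → ℂ) (hF : ContDiff ℝ ∞ F)
    (hs : ∀ t y, F (t, y) ≠ 0 → -1 ≤ y ∧ y ≤ 16) :
    ∃ N : ℝ, 0 < N ∧ ∀ t ∈ Icc (1 : ℝ) 2, Cls (-1) 16 N 2 (fun y => F (t, y)) := by
  have h1 : ∀ k : ℕ, ∃ M : ℝ, ∀ q ∈ (Icc (1 : ℝ) 2 ×ˢ Icc (-1 : ℝ) 16),
      ‖iteratedDeriv k (fun y => F (q.1, y)) q.2‖ ≤ M := by
    intro k
    have hc : IsCompact (Icc (1 : ℝ) 2 ×ˢ Icc (-1 : ℝ) 16) := isCompact_Icc.prod isCompact_Icc
    exact hc.exists_bound_of_continuousOn (jd k F hF).continuous.continuousOn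
  choose M hM using h1
  refine ⟨|M 0| + |M 1| + |M 2| + 1, by positivity, ?_⟩
  intro t ht
  refine ⟨?_, fun y hy => hs t y hy, ?_⟩
  · exact hF.comp (contDiff_const.prodMk contDiff_id)
  · intro k hk y
    have hMk : M k ≤ |M 0| + |M 1| + |M 2| + 1 := by
      have h0 := abs_nonneg (M 0)
      have h1 := abs_nonneg (M 1)
      have h2 := abs_nonneg (M 2)
      have hk' : k = 0 ∨ k = 1 ∨ k = 2 := by omega
      rcases hk' with rfl | rfl | rfl
      · have := le_abs_self (M 0)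
        linarith
      · have := le_abs_self (M 1)
        linarith
      · have := le_abs_self (M 2)
        linarith
    by_cases hy : y ∈ Icc (-1 : ℝ) 16
    · exact (hM k (t, y) ⟨ht, hy⟩).trans hMk
    · have h2 : iteratedDeriv k (fun y => F (t, y)) y = 0 := by
        apply iter_zero (fun y => F (t, y)) (Icc (-1 : ℝ) 16)ᶜ isClosed_Icc.isOpen_compl _ k y hy
        intro z hz
        by_contra hne
        exact hz (hs t z hne)
      rw [h2, norm_zero]
      positivity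

theorem cls_mono {lo hi N N' : ℝ} {K : ℕ} {Θ : ℝ → ℂ} (h : Cls lo hi N K Θ) (hN : N ≤ N') :
    Cls lo hi N' K Θ :=
  ⟨h.1, h.2.1, fun k hk y => (h.2.2 k hk y).trans hN⟩

theorem smq : S_SMQ := by
  intro χ hχ hs
  have hχ' : ContDiff ℝ ∞ χ := hχ
  obtain ⟨F, hFdef⟩ : ∃ F : ℝ × ℝ → ℂ,
      F = fun q => χ q.2 * eC (((2 * Real.pi * q.1) ^ 2 * q.2 : ℝ) : ℂ) := ⟨_, rfl⟩
  obtain ⟨G, hGdef⟩ : ∃ G : ℝ × ℝ → ℂ,
      G = fun q => χ q.2 * ((q.1 : ℂ) * eS (((2 * Real.pi * q.1) ^ 2 * q.2 : ℝ) : ℂ)) := ⟨_, rfl⟩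
  have hpol : ContDiff ℝ ∞ (fun q : ℝ × ℝ => (2 * Real.pi * q.1) ^ 2 * q.2) := by
    fun_prop
  have hF : ContDiff ℝ ∞ F := by
    rw [hFdef]
    exact (hχ'.comp contDiff_snd).mul (eC_real.comp hpol)
  have hG : ContDiff ℝ ∞ G := by
    rw [hGdef]
    refine (hχ'.comp contDiff_snd).mul (ContDiff.mul ?_ (eS_real.comp hpol))
    exact Complex.ofRealCLM.contDiff.comp contDiff_fst
  have hFs : ∀ t y, F (t, y) ≠ 0 → -1 ≤ y ∧ y ≤ 16 := by
    intro t y h
    rw [hFdef] at h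
    exact hs y (left_ne_zero_of_mul h)
  have hGs : ∀ t y, G (t, y) ≠ 0 → -1 ≤ y ∧ y ≤ 16 := by
    intro t y h
    rw [hGdef] at h
    exact hs y (left_ne_zero_of_mul h)
  obtain ⟨N1, hN1, h1⟩ := bd F hF hFs
  obtain ⟨N2, hN2, h2⟩ := bd G hG hGs
  refine ⟨N1 + N2, by positivity, ?_⟩
  intro t ht
  refine ⟨fun y => F (t, y), fun y => G (t, y), cls_mono (h1 t ht) (by linarith),
    cls_mono (h2 t ht) (by linarith), ?_, ?_⟩
  · intro y hy
    rw [hFdef]
    show χ y * eC (((2 * Real.pi * t) ^ 2 * y : ℝ) : ℂ) = _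
    have h3 : (((2 * Real.pi * t) ^ 2 * y : ℝ) : ℂ) =
        (((2 * Real.pi * t * Real.sqrt y : ℝ) : ℂ)) ^ 2 := by
      rw [← Complex.ofReal_pow]
      congr 1
      rw [mul_pow _ (Real.sqrt y), Real.sq_sqrt hy]
    rw [h3, eC_sq, Complex.ofReal_cos]
  · intro y hy
    rw [hGdef]
    show χ y * ((t : ℂ) * eS (((2 * Real.pi * t) ^ 2 * y : ℝ) : ℂ)) = _
    congr 1
    have ht0 : (0 : ℝ) < t := by
      have := ht.1
      linarith
    unfold sn
    by_cases hy0 : y = 0
    · rw [if_pos hy0, hy0, mul_zero, Complex.ofReal_zero, eS_zero, mul_one]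
    · rw [if_neg hy0]
      have hypos : 0 < y := lt_of_le_of_ne hy (Ne.symm hy0)
      have hsq : 0 < Real.sqrt y := Real.sqrt_pos.2 hypos
      have h3 : (((2 * Real.pi * t) ^ 2 * y : ℝ) : ℂ) =
          (((2 * Real.pi * t * Real.sqrt y : ℝ) : ℂ)) ^ 2 := by
        rw [← Complex.ofReal_pow]
        congr 1
        rw [mul_pow _ (Real.sqrt y), Real.sq_sqrt hy]
      rw [h3]
      have h4 := eS_sq ((2 * Real.pi * t * Real.sqrt y : ℝ) : ℂ)
      have hπ := Real.pi_pos
      have h5 : (((2 * Real.pi * Real.sqrt y : ℝ)) : ℂ) ≠ 0 := by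
        rw [Ne, Complex.ofReal_eq_zero]
        positivity
      rw [Complex.ofReal_div, Complex.ofReal_sin, ← h4, eq_div_iff h5]
      push_cast
      ring

end Pool.Agent.W85.WV
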